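import Mathlib

set_option autoImplicit false

/-!
# Parallelogram conditions do not imply Condition H

For every `d ≥ 4` there are a finite integrally convex set `S ⊆ ℤ^d` (a set of `d + 2` points of
the cube `{0,1}^d`) and a partition `S = A ∪ B` into nonempty sets which satisfies the
`k`-parallelogram condition for all `k < F_{d+1}` (a Fibonacci number, larger than `d`), but which
does not satisfy Condition H.

The points are `x_0, …, x_{d+1}`, where `x_j i = 1` if `j = i + 1`, or if `j ≤ i` and `i - j` is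
even, and `x_j i = 0` otherwise. Up to a factor there is only one affine dependency between them;
its coefficients are `1, -F_1, F_2, -F_3, …, (-1)^d F_d, (-1)^(d+1) F_{d-1}`.
-/

namespace Pool.Agent.Results.MP_e13ffb_co.FibonacciCounterexample

open Finset

/-- The inclusion of `ℤ^d` into `ℝ^d`. -/
def toReal {d : ℕ} (y : Fin d → ℤ) : Fin d → ℝ := fun i => (y i : ℝ)

/-- The integral neighbourhood `N(x) = {y ∈ ℤ^d : |x_i - y_i| < 1 for all i}`. -/
def nbhd {d : ℕ} (x : Fin d → ℝ) : Set (Fin d → ℤ) := {y | ∀ i, |x i - (y i : ℝ)| < 1}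

/-- `S ⊆ ℤ^d` is integrally convex: every `x ∈ conv S` lies in `conv (S ∩ N(x))`. -/
def IntegrallyConvex {d : ℕ} (S : Set (Fin d → ℤ)) : Prop :=
  ∀ x ∈ convexHull ℝ (toReal '' S), x ∈ convexHull ℝ (toReal '' (S ∩ nbhd x))

/-- The `k`-parallelogram condition: `a_1 + ⋯ + a_{k'} ≠ b_1 + ⋯ + b_{k'}` for all
`1 ≤ k' ≤ k`, `a_i ∈ A` and `b_i ∈ B` (repetitions allowed). -/
def Parallelogram {d : ℕ} (k : ℕ) (A B : Set (Fin d → ℤ)) : Prop :=
  ∀ k' : ℕ, 1 ≤ k' → k' ≤ k → ∀ a b : Fin k' → (Fin d → ℤ), (∀ i, a i ∈ A) → (∀ i, b i ∈ B) →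
    ∑ i, a i ≠ ∑ i, b i

/-- `L` is an `l`-dimensional affine subspace of `ℝ^d`. -/
def HasDim {d : ℕ} (L : AffineSubspace ℝ (Fin d → ℝ)) (l : ℕ) : Prop :=
  (L : Set (Fin d → ℝ)).Nonempty ∧ Module.finrank ℝ L.direction = l

/-- The hyperplane `P` of `L` separates `A` and `B` in `L`: for an affine function `f` whose zero
set in `L` is `P`, the points of `S` in `L` with `f > 0` belong to `A` and those with `f < 0`
belong to `B`. (The sets `f > 0` and `f < 0` are the two components of `L \ P`.) -/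
def Separates {d : ℕ} (S A B : Set (Fin d → ℤ)) (P L : AffineSubspace ℝ (Fin d → ℝ)) : Prop :=
  ∃ f : (Fin d → ℝ) →ᵃ[ℝ] ℝ, (∀ x ∈ L, x ∈ P ↔ f x = 0) ∧
    (∀ s ∈ S, toReal s ∈ L → 0 < f (toReal s) → s ∈ A) ∧
    (∀ s ∈ S, toReal s ∈ L → f (toReal s) < 0 → s ∈ B)

/-- Condition H: there are `k` and affine subspaces `H k ⊆ H (k+1) ⊆ ⋯ ⊆ H d = ℝ^d` with
`dim H i = i` such that `H k ∩ S ⊆ A` or `H k ∩ S ⊆ B`, and `H (i-1)` separates `A` and `B` in
`H i` for `k + 1 ≤ i ≤ d`. -/
def ConditionH {d : ℕ} (S A B : Set (Fin d → ℤ)) : Prop :=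
  ∃ (k : ℕ) (H : ℕ → AffineSubspace ℝ (Fin d → ℝ)), k ≤ d ∧ H d = ⊤ ∧
    (∀ i, k ≤ i → i ≤ d → HasDim (H i) i) ∧ (∀ i, k ≤ i → i < d → H i ≤ H (i + 1)) ∧
    ((∀ s ∈ S, toReal s ∈ H k → s ∈ A) ∨ (∀ s ∈ S, toReal s ∈ H k → s ∈ B)) ∧
    ∀ i, k ≤ i → i < d → Separates S A B (H i) (H (i + 1))

/-! ### Subsets of the cube are integrally convex -/

lemma cube_integrallyConvex {d : ℕ} (S : Set (Fin d → ℤ)) (hS : ∀ s ∈ S, ∀ i, s i = 0 ∨ s i = 1) :
    IntegrallyConvex S := by
  classical
  intro x hx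
  -- write `x` as a convex combination with positive weights
  rw [_root_.convexHull_eq] at hx
  obtain ⟨ι, t, w, z, hw0, hw1, hz, hxz⟩ := hx
  rw [Finset.centerMass_eq_of_sum_1 _ _ hw1] at hxz
  choose! y hyS hyz using hz
  have hxi : ∀ i, x i = ∑ j ∈ t, w j * (y j i : ℝ) := by
    intro i
    rw [← hxz, Finset.sum_apply]
    apply Finset.sum_congr rfl
    intro j hj
    rw [← hyz j hj]
    rfl
  have hnb : ∀ j ∈ t, w j ≠ 0 → y j ∈ nbhd x := by
    intro j hj hwj i
    have hwj' : 0 < w j := lt_of_le_of_ne (hw0 j hj) (Ne.symm hwj)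
    have hval : ∀ l ∈ t, (y l i : ℝ) = 0 ∨ (y l i : ℝ) = 1 := by
      intro l hl
      rcases hS _ (hyS l hl) i with h | h <;> simp [h]
    have hge : w j * (y j i : ℝ) ≤ x i := by
      rw [hxi]
      apply Finset.single_le_sum (f := fun j => w j * (y j i : ℝ)) _ hj
      intro l hl
      rcases hval l hl with h | h <;> simp [h, hw0 l hl]
    have hge' : w j * (1 - (y j i : ℝ)) ≤ 1 - x i := by
      have : 1 - x i = ∑ l ∈ t, w l * (1 - (y l i : ℝ)) := by
        rw [hxi]
        simp only [mul_sub, mul_one, Finset.sum_sub_distrib, hw1]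
      rw [this]
      apply Finset.single_le_sum (f := fun j => w j * (1 - (y j i : ℝ))) _ hj
      intro l hl
      rcases hval l hl with h | h <;> simp [h, hw0 l hl]
    have h0 : 0 ≤ x i := by
      rw [hxi]
      apply Finset.sum_nonneg
      intro l hl
      rcases hval l hl with h | h <;> simp [h, hw0 l hl]
    have h1 : x i ≤ 1 := by
      have : 1 - x i = ∑ l ∈ t, w l * (1 - (y l i : ℝ)) := by
        rw [hxi]
        simp only [mul_sub, mul_one, Finset.sum_sub_distrib, hw1]
      have h2 : 0 ≤ 1 - x i := by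
        rw [this]
        apply Finset.sum_nonneg
        intro l hl
        rcases hval l hl with h | h <;> simp [h, hw0 l hl]
      linarith
    rcases hval j hj with h | h
    · rw [h] at hge' ⊢
      rw [abs_lt]
      constructor <;> linarith
    · rw [h] at hge ⊢
      rw [abs_lt]
      constructor <;> linarith
  have hsum : ∑ j ∈ t.filter (fun j => w j ≠ 0), w j • z j = x := by
    rw [← hxz]
    apply Finset.sum_filter_of_ne
    intro j _ h hw
    apply h
    rw [hw, zero_smul]
  have hmem : ∑ j ∈ t.filter (fun j => w j ≠ 0), w j • z j ∈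
      convexHull ℝ (toReal '' (S ∩ nbhd x)) := by
    apply (convex_convexHull ℝ _).sum_mem
    · intro j hj
      exact hw0 j (Finset.mem_filter.mp hj).1
    · rw [← hw1]
      apply Finset.sum_filter_of_ne
      intro j _ h
      exact h
    · intro j hj
      rw [Finset.mem_filter] at hj
      apply subset_convexHull
      exact ⟨y j, ⟨hyS j hj.1, hnb j hj.1 hj.2⟩, hyz j hj.1⟩
  rwa [hsum] at hmem

/-! ### The points -/

/-- The points `x_j`. -/
def pt (d : ℕ) (j : ℕ) : Fin d → ℤ :=
  fun i => if j = (i : ℕ) + 1 ∨ (j ≤ (i : ℕ) ∧ Even ((i : ℕ) - j)) then 1 else 0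

/-- The set `A` of the points with even index. -/
def setA (d : ℕ) : Set (Fin d → ℤ) := {y | ∃ j, j ≤ d + 1 ∧ Even j ∧ y = pt d j}

/-- The set `B` of the points with odd index. -/
def setB (d : ℕ) : Set (Fin d → ℤ) := {y | ∃ j, j ≤ d + 1 ∧ ¬ Even j ∧ y = pt d j}

/-- The coefficients of the affine dependency, up to index `d`. -/
def co (j : ℕ) : ℤ := if j = 0 then 1 else (-1) ^ j * (Nat.fib j : ℤ)


lemma pt_cube (d j : ℕ) (i : Fin d) : pt d j i = 0 ∨ pt d j i = 1 := by
  unfold pt
  split_ifs <;> simp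

lemma pt_inj {d j j' : ℕ} (hd : 2 ≤ d) (hj' : j' ≤ d + 1) (hlt : j < j') : pt d j ≠ pt d j' := by
  intro h
  by_cases h2 : 2 ≤ j'
  · -- the first nonzero coordinate of `pt d j`
    have hi : j - 1 < d := by omega
    have h3 := congrFun h ⟨j - 1, hi⟩
    unfold pt at h3
    simp only at h3
    have h4 : j = j - 1 + 1 ∨ j ≤ j - 1 ∧ Even (j - 1 - j) := by
      rcases Nat.eq_zero_or_pos j with h0 | h0
      · right
        subst h0
        simp
      · left
        omega
    have h5 : ¬ (j' = j - 1 + 1 ∨ j' ≤ j - 1 ∧ Even (j - 1 - j')) := by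
      rintro (h6 | ⟨h6, -⟩) <;> omega
    rw [if_pos h4, if_neg h5] at h3
    exact one_ne_zero h3
  · have h0 : j = 0 := by omega
    have h1 : j' = 1 := by omega
    subst h0 h1
    have h3 := congrFun h ⟨1, by omega⟩
    simp [pt] at h3

lemma pt_inj' {d j j' : ℕ} (hd : 2 ≤ d) (hj : j ≤ d + 1) (hj' : j' ≤ d + 1)
    (h : pt d j = pt d j') : j = j' := by
  rcases lt_trichotomy j j' with h1 | h1 | h1
  · exact absurd h (pt_inj hd hj' h1)
  · exact h1
  · exact absurd h.symm (pt_inj hd hj h1)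

lemma co_zero : co 0 = 1 := by simp [co]

lemma co_one : co 1 = -1 := by simp [co]

lemma co_two : co 2 = 1 := by simp [co]

lemma co_rec (i : ℕ) (hi : 1 ≤ i) : co (i + 2) = co i - co (i + 1) := by
  unfold co
  rw [if_neg (by omega), if_neg (by omega), if_neg (by omega), Nat.fib_add_two]
  push_cast
  ring

/-- the sum of the `m j` with `j ≤ i`, `j ≡ i` modulo two -/
def ps (m : ℕ → ℤ) (i : ℕ) : ℤ := ∑ j ∈ range (i + 1), if Even (i - j) then m j else 0

lemma ps_zero (m : ℕ → ℤ) : ps m 0 = m 0 := by simp [ps]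

lemma ps_one (m : ℕ → ℤ) : ps m 1 = m 1 := by simp [ps, Finset.sum_range_succ]

lemma ps_rec (m : ℕ → ℤ) (i : ℕ) : ps m (i + 2) = m (i + 2) + ps m i := by
  unfold ps
  rw [Finset.sum_range_succ, Finset.sum_range_succ]
  have h1 : ¬ Even (i + 2 - (i + 1)) := by
    have : i + 2 - (i + 1) = 1 := by omega
    rw [this]
    exact Nat.not_even_one
  rw [if_neg h1, if_pos (by simp), add_zero, add_comm]
  congr 1
  apply Finset.sum_congr rfl
  intro j hj
  rw [Finset.mem_range] at hj
  have : Even (i + 2 - j) ↔ Even (i - j) := by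
    have h2 : i + 2 - j = (i - j) + 2 := by omega
    rw [h2, Nat.even_add]
    simp
  simp only [this]

lemma rec_sol (m : ℕ → ℤ) (d : ℕ) (hrow : ∀ i, i < d → m (i + 1) + ps m i = 0) :
    ∀ i, i ≤ d → m i = co i * m 0 ∧ ps m i = - co (i + 1) * m 0 := by
  intro i
  induction i using Nat.strong_induction_on with
  | _ i ih =>
    intro hi
    rcases i with _ | _ | i
    · refine ⟨by rw [co_zero, one_mul], by rw [ps_zero, zero_add, co_one]; ring⟩
    · have h := hrow 0 (by omega)
      rw [ps_zero] at h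
      simp only [zero_add] at h ⊢
      refine ⟨by rw [co_one]; linarith, ?_⟩
      rw [ps_one, show (1 + 1 : ℕ) = 2 from rfl, co_two]
      linarith
    · have h := hrow (i + 1) (by omega)
      obtain ⟨h1, h2⟩ := ih (i + 1) (by omega) (by omega)
      obtain ⟨h3, h4⟩ := ih i (by omega) (by omega)
      have h5 : m (i + 2) = co (i + 2) * m 0 := by
        have : m (i + 1 + 1) = - ps m (i + 1) := by linarith
        rw [show i + 2 = i + 1 + 1 from rfl, this, h2]
        ring
      refine ⟨h5, ?_⟩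
      rw [show i + 1 + 1 = i + 2 from rfl, ps_rec, h5, h4,
        show i + 2 + 1 = i + 1 + 2 from rfl, co_rec (i + 1) (by omega)]
      rw [show i + 1 + 1 = i + 2 from rfl]
      ring

/-- row `i` of the configuration -/
lemma row_sum (m : ℕ → ℤ) (d : ℕ) (i : Fin d) :
    ∑ j ∈ range (d + 2), m j * pt d j i = m ((i : ℕ) + 1) + ps m i := by
  have hi := i.2
  have h1 : ∑ j ∈ range (d + 2), m j * pt d j i =
      ∑ j ∈ range (d + 2), ((if j = (i : ℕ) + 1 then m j else 0) +
        if j < (i : ℕ) + 1 then (if Even ((i : ℕ) - j) then m j else 0) else 0) := by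
    apply Finset.sum_congr rfl
    intro j _
    unfold pt
    by_cases h1 : j = (i : ℕ) + 1
    · subst h1
      simp
    · by_cases h2 : j < (i : ℕ) + 1
      · have h3 : j ≤ (i : ℕ) := by omega
        by_cases h4 : Even ((i : ℕ) - j)
        · simp [h1, h2, h3, h4]
        · simp [h1, h2, h4]
      · have h3 : ¬ j ≤ (i : ℕ) := by omega
        simp [h1, h2, h3]
  rw [h1, Finset.sum_add_distrib, Finset.sum_ite_eq' (range (d + 2)) ((i : ℕ) + 1),
    if_pos (by rw [Finset.mem_range]; omega)]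
  congr 1
  unfold ps
  rw [← Finset.sum_filter]
  apply Finset.sum_congr _ (fun _ _ => rfl)
  ext j
  simp only [Finset.mem_filter, Finset.mem_range]
  omega


/-! ### The parallelogram conditions -/

lemma parallelogram_fib (d : ℕ) (k : ℕ) (hk : k < Nat.fib (d + 1)) :
    Parallelogram k (setA d) (setB d) := by
  classical
  intro k' hk1 hk2 a b ha hb hab
  choose ja hja1 hja2 hja3 using ha
  choose jb hjb1 hjb2 hjb3 using hb
  -- the multiplicities
  obtain ⟨m, hm⟩ : ∃ m : ℕ → ℤ, m = fun j =>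
    ((univ.filter (fun t => ja t = j)).card : ℤ) - ((univ.filter (fun t => jb t = j)).card : ℤ) :=
    ⟨_, rfl⟩
  have hsum : ∀ g : ℕ → ℤ, ∑ j ∈ range (d + 2), m j * g j = ∑ t, g (ja t) - ∑ t, g (jb t) := by
    intro g
    have h1 : ∀ (f : Fin k' → ℕ), (∀ t, f t ≤ d + 1) →
        ∑ j ∈ range (d + 2), ((univ.filter (fun t => f t = j)).card : ℤ) * g j
          = ∑ t, g (f t) := by
      intro f hf
      have h2 : ∀ j, ((univ.filter (fun t => f t = j)).card : ℤ) * g j =
          ∑ t, if f t = j then g (f t) else 0 := by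
        intro j
        rw [← Finset.sum_filter]
        rw [Finset.sum_congr rfl (g := fun _ => g j)]
        · rw [Finset.sum_const, nsmul_eq_mul]
        · intro t ht
          rw [(Finset.mem_filter.mp ht).2]
      rw [Finset.sum_congr rfl (fun j _ => h2 j), Finset.sum_comm]
      apply Finset.sum_congr rfl
      intro t _
      rw [Finset.sum_ite_eq, if_pos]
      rw [Finset.mem_range]
      have := hf t
      omega
    rw [hm]
    simp only [sub_mul, Finset.sum_sub_distrib]
    rw [h1 ja hja1, h1 jb hjb1]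
  have hrow : ∀ i, i < d → m (i + 1) + ps m i = 0 := by
    intro i hi
    have h1 := row_sum m d ⟨i, hi⟩
    have h2 := hsum (fun j => pt d j ⟨i, hi⟩)
    have h3 := congrFun hab ⟨i, hi⟩
    rw [Finset.sum_apply, Finset.sum_apply] at h3
    have h4 : ∑ t, pt d (ja t) ⟨i, hi⟩ = ∑ t, a t ⟨i, hi⟩ :=
      Finset.sum_congr rfl (fun t _ => by rw [hja3 t])
    have h5 : ∑ t, pt d (jb t) ⟨i, hi⟩ = ∑ t, b t ⟨i, hi⟩ :=
      Finset.sum_congr rfl (fun t _ => by rw [hjb3 t])
    simp only at h1 h2
    rw [← h1, h2, h4, h5, h3, sub_self]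
  obtain ⟨-, hps⟩ := rec_sol m d hrow d le_rfl
  -- the sum over the indices congruent to `d`
  have hpsd : ps m d = ∑ j ∈ range (d + 2), m j * (if Even (d + j) then 1 else 0) := by
    unfold ps
    rw [Finset.sum_range_succ (n := d + 1)]
    have : ¬ Even (d + (d + 1)) := by
      rw [← add_assoc, ← two_mul]
      simp
    rw [if_neg this, mul_zero, add_zero]
    apply Finset.sum_congr rfl
    intro j hj
    rw [Finset.mem_range] at hj
    have h2 : Even (d - j) ↔ Even (d + j) := by
      have h3 : d + j = (d - j) + 2 * j := by omega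
      rw [h3, Nat.even_add]
      simp
    rw [if_congr h2 rfl rfl]
    split_ifs <;> simp
  rw [hsum] at hpsd
  -- `m 0` is a natural number
  have hm0 : 0 ≤ m 0 := by
    rw [hm]
    simp only
    have : (univ.filter (fun t => jb t = 0)) = ∅ := by
      rw [Finset.filter_eq_empty_iff]
      intro t _ h
      apply hjb2 t
      rw [h]
      exact Even.zero
    rw [this]
    simp
  have hfib : (k' : ℤ) = (Nat.fib (d + 1) : ℤ) * m 0 := by
    rcases Nat.even_or_odd d with hd | hd
    · have h1 : ∀ t, Even (d + ja t) := fun t => hd.add (hja2 t)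
      have h2 : ∀ t, ¬ Even (d + jb t) := fun t => by
        rw [Nat.even_add]
        exact fun h => hjb2 t (h.mp hd)
      simp only [if_pos (h1 _), if_neg (h2 _)] at hpsd
      simp only [Finset.sum_const, Finset.card_univ, Fintype.card_fin, smul_zero, sub_zero,
        nsmul_eq_mul, mul_one] at hpsd
      rw [← hpsd, hps]
      unfold co
      rw [if_neg (by omega), (hd.add_one).neg_one_pow]
      ring
    · have h1 : ∀ t, ¬ Even (d + ja t) := fun t => by
        rw [Nat.even_add]
        exact fun h => (Nat.not_even_iff_odd.mpr hd) (h.mpr (hja2 t))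
      have h2 : ∀ t, Even (d + jb t) := fun t => by
        rw [Nat.even_add]
        exact ⟨fun h => absurd h (Nat.not_even_iff_odd.mpr hd), fun h => absurd h (hjb2 t)⟩
      simp only [if_neg (h1 _), if_pos (h2 _)] at hpsd
      simp only [Finset.sum_const, Finset.card_univ, Fintype.card_fin, smul_zero, zero_sub,
        nsmul_eq_mul, mul_one] at hpsd
      have h3 : (k' : ℤ) = - ps m d := by linarith
      rw [h3, hps]
      unfold co
      rw [if_neg (by omega), (hd.add_one).neg_one_pow]
      ring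
  have hm1 : 1 ≤ m 0 := by
    rcases hm0.lt_or_eq with h | h
    · omega
    · rw [← h, mul_zero] at hfib
      omega
  have : (Nat.fib (d + 1) : ℤ) ≤ (k' : ℤ) := by
    rw [hfib]
    nlinarith [(Nat.fib (d + 1)).zero_le]
  omega

/-! ### Condition H fails -/

/-- the last coefficient of the affine dependency -/
def coef (d j : ℕ) : ℤ := if j = d + 1 then (-1) ^ (d + 1) * (Nat.fib (d - 1) : ℤ) else co j

lemma ps_co (i : ℕ) : ps co i = - co (i + 1) := by
  induction i using Nat.strong_induction_on with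
  | _ i ih =>
    rcases i with _ | _ | i
    · rw [ps_zero, zero_add, co_zero, co_one]
      ring
    · rw [ps_one, show (0 + 1 + 1 : ℕ) = 2 from rfl, co_two, co_one]
    · rw [ps_rec, ih i (by omega), show i + 1 + 1 + 1 = (i + 1) + 2 from rfl,
        co_rec (i + 1) (by omega)]
      rw [show i + 1 + 1 = i + 2 from rfl]
      ring

lemma sum_co (d : ℕ) (hd : 1 ≤ d) :
    ∑ j ∈ range (d + 1), co j = (-1) ^ d * (Nat.fib (d - 1) : ℤ) := by
  obtain ⟨e, rfl⟩ : ∃ e, d = e + 1 := ⟨d - 1, by omega⟩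
  have h : ∑ j ∈ range (e + 1 + 1), co j = ps co (e + 1) + ps co e := by
    unfold ps
    rw [Finset.sum_range_succ, Finset.sum_range_succ (fun j => if Even (e + 1 - j) then co j else 0)]
    rw [if_pos (by simp)]
    rw [add_right_comm, ← Finset.sum_add_distrib]
    congr 1
    apply Finset.sum_congr rfl
    intro j hj
    rw [Finset.mem_range] at hj
    have h2 : e + 1 - j = (e - j) + 1 := by omega
    rw [h2]
    by_cases h3 : Even (e - j)
    · rw [if_pos h3, if_neg (by rw [Nat.even_add_one]; exact not_not.mpr h3), zero_add]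
    · rw [if_neg h3, if_pos (by rw [Nat.even_add_one]; exact h3), add_zero]
  rw [h, ps_co, ps_co]
  unfold co
  rw [if_neg (by omega), if_neg (by omega), show e + 1 + 1 = e + 2 from rfl, Nat.fib_add_two,
    Nat.add_sub_cancel]
  push_cast
  ring

lemma coef_sum (d : ℕ) (hd : 1 ≤ d) : ∑ j ∈ range (d + 2), coef d j = 0 := by
  rw [Finset.sum_range_succ]
  have h1 : ∑ j ∈ range (d + 1), coef d j = ∑ j ∈ range (d + 1), co j := by
    apply Finset.sum_congr rfl
    intro j hj
    rw [Finset.mem_range] at hj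
    unfold coef
    rw [if_neg (by omega)]
  rw [h1, sum_co d hd]
  unfold coef
  rw [if_pos rfl]
  ring

lemma coef_row (d : ℕ) (i : Fin d) : ∑ j ∈ range (d + 2), coef d j * pt d j i = 0 := by
  have hi := i.2
  have h1 : ∑ j ∈ range (d + 2), coef d j * pt d j i = ∑ j ∈ range (d + 2), co j * pt d j i := by
    apply Finset.sum_congr rfl
    intro j hj
    by_cases h : j = d + 1
    · have : pt d j i = 0 := by
        unfold pt
        rw [if_neg]
        rintro (h2 | ⟨h2, -⟩) <;> omega
      rw [this, mul_zero, mul_zero]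
    · unfold coef
      rw [if_neg h]
  rw [h1, row_sum, ps_co]
  ring

lemma coef_sign (d j : ℕ) (hd : 2 ≤ d) (hj : j ≤ d + 1) : 0 < (-1) ^ j * coef d j := by
  have hsq : ∀ n : ℕ, ((-1 : ℤ) ^ n * (-1) ^ n) = 1 := by
    intro n
    rw [← mul_pow]
    simp
  unfold coef co
  split_ifs with h1 h2
  · subst h1
    rw [← mul_assoc, hsq, one_mul]
    exact_mod_cast Nat.fib_pos.mpr (by omega)
  · subst h2
    simp
  · rw [← mul_assoc, hsq, one_mul]
    exact_mod_cast Nat.fib_pos.mpr (by omega)

/-- An affine function on `ℝ^d` in coordinates. -/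
lemma affine_coord {d : ℕ} (f : (Fin d → ℝ) →ᵃ[ℝ] ℝ) (x : Fin d → ℝ) :
    f x = f 0 + ∑ i, x i * f.linear (Pi.single i 1) := by
  have h1 : f x = f.linear x + f 0 := by
    rw [f.decomp']
    simp
  rw [h1, add_comm]
  congr 1
  conv_lhs => rw [← Finset.univ_sum_single x]
  rw [map_sum]
  apply Finset.sum_congr rfl
  intro i _
  have : (Pi.single i (x i) : Fin d → ℝ) = x i • (Pi.single i 1 : Fin d → ℝ) := by
    rw [← Pi.single_smul, smul_eq_mul, mul_one]
  rw [this, map_smul, smul_eq_mul]

lemma toReal_last (d : ℕ) : toReal (pt d (d + 1)) = 0 := by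
  funext i
  have hi := i.2
  unfold toReal pt
  rw [if_neg]
  · simp
  · rintro (h2 | ⟨h2, -⟩) <;> omega

/-- An affine function which vanishes at all the points vanishes identically. -/
lemma affine_vanish {d : ℕ} (f : (Fin d → ℝ) →ᵃ[ℝ] ℝ)
    (h : ∀ j, j ≤ d + 1 → f (toReal (pt d j)) = 0) (x : Fin d → ℝ) : f x = 0 := by
  have h0 : f 0 = 0 := by
    rw [← toReal_last d]
    exact h (d + 1) le_rfl
  have hw : ∀ n, ∀ i : Fin d, d - (i : ℕ) = n → f.linear (Pi.single i 1) = 0 := by
    intro n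
    induction n using Nat.strong_induction_on with
    | _ n ih =>
      intro i hin
      have hi := i.2
      have h1 := h ((i : ℕ) + 1) (by omega)
      rw [affine_coord, h0, zero_add, Finset.sum_eq_single i] at h1
      · have h2 : toReal (pt d ((i : ℕ) + 1)) i = 1 := by
          unfold toReal pt
          simp
        rwa [h2, one_mul] at h1
      · intro l _ hl
        have hl' : (l : ℕ) ≠ i := fun h => hl (Fin.ext h)
        by_cases h3 : (l : ℕ) < i
        · have : toReal (pt d ((i : ℕ) + 1)) l = 0 := by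
            unfold toReal pt
            rw [if_neg]
            · simp
            · rintro (h2 | ⟨h2, -⟩) <;> omega
          rw [this, zero_mul]
        · rw [ih (d - (l : ℕ)) (by omega) l rfl, mul_zero]
      · intro h2
        exact absurd (Finset.mem_univ _) h2
  rw [affine_coord, h0, zero_add]
  apply Finset.sum_eq_zero
  intro i _
  rw [hw _ i rfl, mul_zero]

/-- `f` evaluated along the dependency. -/
lemma affine_dep {d : ℕ} (hd : 1 ≤ d) (f : (Fin d → ℝ) →ᵃ[ℝ] ℝ) :
    ∑ j ∈ range (d + 2), (coef d j : ℝ) * f (toReal (pt d j)) = 0 := by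
  have h1 : ∀ j, f (toReal (pt d j)) =
      f 0 + ∑ i, (pt d j i : ℝ) * f.linear (Pi.single i 1) := fun j => affine_coord f _
  simp only [h1, mul_add, Finset.sum_add_distrib]
  rw [← Finset.sum_mul]
  have h2 : (∑ j ∈ range (d + 2), (coef d j : ℝ)) = 0 := by
    exact_mod_cast congrArg (Int.cast : ℤ → ℝ) (coef_sum d hd)
  rw [h2, zero_mul, zero_add]
  simp only [Finset.mul_sum]
  rw [Finset.sum_comm]
  apply Finset.sum_eq_zero
  intro i _
  have h3 : (∑ j ∈ range (d + 2), (coef d j : ℝ) * (pt d j i : ℝ)) = 0 := by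
    exact_mod_cast congrArg (Int.cast : ℤ → ℝ) (coef_row d i)
  simp only [← mul_assoc]
  rw [← Finset.sum_mul, h3, zero_mul]

lemma disj {d : ℕ} (hd : 2 ≤ d) : Disjoint (setA d) (setB d) := by
  rw [Set.disjoint_left]
  rintro _ ⟨j, hj1, hj2, rfl⟩ ⟨j', hj1', hj2', h⟩
  have := pt_inj' hd hj1 hj1' h
  subst this
  exact hj2' hj2

lemma not_conditionH {d : ℕ} (hd : 2 ≤ d) :
    ¬ ConditionH (setA d ∪ setB d) (setA d) (setB d) := by
  rintro ⟨k, H, hkd, htop, hdim, hle, hbase, hsep⟩
  have hA : pt d 0 ∈ setA d := ⟨0, by omega, Even.zero, rfl⟩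
  have hB : pt d 1 ∈ setB d := ⟨1, by omega, Nat.not_even_one, rfl⟩
  have hdis := disj hd
  rcases Nat.lt_or_ge k d with hk | hk
  · obtain ⟨e, rfl⟩ : ∃ e, d = e + 1 := ⟨d - 1, by omega⟩
    obtain ⟨f, hf, hfA, hfB⟩ := hsep e (by omega) (by omega)
    rw [htop] at hf hfA hfB
    obtain ⟨⟨-, hdime⟩⟩ := And.intro (hdim e (by omega) (by omega)) trivial
    -- signs
    have hsgn : ∀ j, j ≤ e + 1 + 1 → 0 ≤ (-1 : ℝ) ^ j * f (toReal (pt (e + 1) j)) := by
      intro j hj
      by_cases hev : Even j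
      · rw [hev.neg_one_pow, one_mul]
        by_contra hlt
        have h1 := hfB (pt (e + 1) j) (Or.inl ⟨j, hj, hev, rfl⟩) (AffineSubspace.mem_top _ _ _)
          (not_le.mp hlt)
        exact Set.disjoint_left.mp hdis ⟨j, hj, hev, rfl⟩ h1
      · rw [(Nat.not_even_iff_odd.mp hev).neg_one_pow, neg_one_mul, neg_nonneg]
        by_contra hlt
        have h1 := hfA (pt (e + 1) j) (Or.inr ⟨j, hj, hev, rfl⟩) (AffineSubspace.mem_top _ _ _)
          (not_le.mp hlt)
        exact Set.disjoint_left.mp hdis h1 ⟨j, hj, hev, rfl⟩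
    have hdep := affine_dep (d := e + 1) (by omega) f
    have hpos : ∀ j, j ≤ e + 1 + 1 → 0 < (-1 : ℝ) ^ j * (coef (e + 1) j : ℝ) := by
      intro j hj
      exact_mod_cast coef_sign (e + 1) j hd hj
    have hprod : ∀ j ∈ range (e + 1 + 2),
        0 ≤ (coef (e + 1) j : ℝ) * f (toReal (pt (e + 1) j)) := by
      intro j hj
      rw [Finset.mem_range] at hj
      have h1 := mul_nonneg (hpos j (by omega)).le (hsgn j (by omega))
      have h2 : (-1 : ℝ) ^ j * (coef (e + 1) j : ℝ) * ((-1 : ℝ) ^ j * f (toReal (pt (e + 1) j))) =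
          ((-1 : ℝ) ^ j * (-1) ^ j) * ((coef (e + 1) j : ℝ) * f (toReal (pt (e + 1) j))) := by
        ring
      rw [h2, ← mul_pow] at h1
      simpa using h1
    rw [Finset.sum_eq_zero_iff_of_nonneg hprod] at hdep
    have hvan : ∀ j, j ≤ e + 1 + 1 → f (toReal (pt (e + 1) j)) = 0 := by
      intro j hj
      have h1 := hdep j (Finset.mem_range.mpr (by omega))
      rcases mul_eq_zero.mp h1 with h2 | h2
      · have := hpos j hj
        rw [h2, mul_zero] at this
        exact absurd this (lt_irrefl _)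
      · exact h2
    have hzero := affine_vanish f hvan
    have htop' : H e = ⊤ := by
      rw [eq_top_iff]
      intro x _
      exact (hf x (AffineSubspace.mem_top _ _ _)).mpr (hzero x)
    rw [htop', AffineSubspace.direction_top, finrank_top, Module.finrank_fin_fun] at hdime
    omega
  · have hkd' : k = d := le_antisymm hkd hk
    subst hkd'
    rw [htop] at hbase
    rcases hbase with h | h
    · have := h (pt k 1) (Or.inr hB) (AffineSubspace.mem_top _ _ _)
      exact Set.disjoint_left.mp hdis this hB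
    · have := h (pt k 0) (Or.inl hA) (AffineSubspace.mem_top _ _ _)
      exact Set.disjoint_left.mp hdis hA this

lemma lt_fib (d : ℕ) (hd : 4 ≤ d) : d < Nat.fib (d + 1) := by
  induction d, hd using Nat.le_induction with
  | base => decide
  | succ n hn ih =>
    have h1 : Nat.fib (n + 1 + 1) = Nat.fib n + Nat.fib (n + 1) := Nat.fib_add_two
    have h2 : 0 < Nat.fib n := Nat.fib_pos.mpr (by omega)
    omega

lemma finite_AB (d : ℕ) : (setA d ∪ setB d).Finite := by
  apply Set.Finite.subset ((Finset.range (d + 2)).image (pt d)).finite_toSet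
  rintro _ (⟨j, hj, -, rfl⟩ | ⟨j, hj, -, rfl⟩) <;>
  · simp only [Finset.coe_image, Set.mem_image, Finset.coe_range, Set.mem_Iio]
    exact ⟨j, by omega, rfl⟩

/-- For every `d ≥ 4` there are a set `S ⊆ {0,1}^d`, which is finite and integrally convex, and a
partition `S = A ∪ B` into nonempty sets which satisfies the `d`-parallelogram condition, and even
the `k`-parallelogram condition for all `k < F_{d+1}`, but not Condition H. -/
theorem result : ∀ d : ℕ, 4 ≤ d → ∃ S A B : Set (Fin d → ℤ),
    S.Finite ∧ (∀ s ∈ S, ∀ i, s i = 0 ∨ s i = 1) ∧ IntegrallyConvex S ∧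
    S = A ∪ B ∧ Disjoint A B ∧ A.Nonempty ∧ B.Nonempty ∧
    Parallelogram d A B ∧ (∀ k : ℕ, k < Nat.fib (d + 1) → Parallelogram k A B) ∧
    ¬ ConditionH S A B := by
  intro d hd
  have hcube : ∀ s ∈ setA d ∪ setB d, ∀ i, s i = 0 ∨ s i = 1 := by
    rintro _ (⟨j, -, -, rfl⟩ | ⟨j, -, -, rfl⟩) i <;> exact pt_cube d j i
  exact ⟨setA d ∪ setB d, setA d, setB d, finite_AB d, hcube, cube_integrallyConvex _ hcube, rfl,
    disj (by omega), ⟨pt d 0, 0, by omega, Even.zero, rfl⟩,
    ⟨pt d 1, 1, by omega, Nat.not_even_one, rfl⟩, parallelogram_fib d d (lt_fib d hd),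
    fun k hk => parallelogram_fib d k hk, not_conditionH (by omega)⟩

end Pool.Agent.Results.MP_e13ffb_co.FibonacciCounterexample
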